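import Mathlib

/-! The exponential of a matrix applied to an eigenvector. -/

set_option autoImplicit false

namespace Pool.Agent.R17.ExpEig

open Matrix Nat

open scoped Matrix.Norms.Operator in
theorem exp_mulVec_of_eigen {V : Type} [Fintype V] [DecidableEq V] (A : Matrix V V ℂ) (v : V → ℂ)
    (l : ℂ) (h : A *ᵥ v = l • v) : NormedSpace.exp A *ᵥ v = Complex.exp l • v := by
  have hpow : ∀ n : ℕ, (A ^ n) *ᵥ v = l ^ n • v := by
    intro n
    induction n with
    | zero => simp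
    | succ n ih =>
      rw [_root_.pow_succ, ← Matrix.mulVec_mulVec, h, Matrix.mulVec_smul, ih, smul_smul, _root_.pow_succ']
  have h1 : HasSum (fun n : ℕ => ((n ! : ℂ)⁻¹) • A ^ n) (NormedSpace.exp A) :=
    NormedSpace.exp_series_hasSum_exp' (𝕂 := ℂ) A
  have h2 : HasSum (fun n : ℕ => ((n ! : ℂ)⁻¹) • l ^ n) (NormedSpace.exp l) :=
    NormedSpace.exp_series_hasSum_exp' (𝕂 := ℂ) l
  rw [← Complex.exp_eq_exp_ℂ] at h2
  let L : Matrix V V ℂ →ₗ[ℂ] (V → ℂ) :=
    { toFun := fun M => M *ᵥ v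
      map_add' := fun M N => Matrix.add_mulVec M N v
      map_smul' := fun c M => Matrix.smul_mulVec c M v }
  have hL : Continuous L := LinearMap.continuous_of_finiteDimensional L
  have h3 := h1.map L hL
  have h4 : HasSum (fun n : ℕ => (((n ! : ℂ)⁻¹) • l ^ n) • v) (Complex.exp l • v) :=
    h2.smul_const v
  have h5 : (L ∘ fun n : ℕ => ((n ! : ℂ)⁻¹) • A ^ n) =
      fun n : ℕ => (((n ! : ℂ)⁻¹) • l ^ n) • v := by
    funext n
    show (((n ! : ℂ)⁻¹) • A ^ n) *ᵥ v = _
    rw [Matrix.smul_mulVec, hpow, smul_smul, smul_eq_mul]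
  rw [h5] at h3
  exact h3.unique h4

end Pool.Agent.R17.ExpEig
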