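import Pool.Agent.R17.ExpEig

/-!
# An oriented graph with multiple state transfer on six vertices: the construction

Vertices: `a_0, …, a_5` and `(i, j, p)` for `i, j ∈ ZMod 6`, `p < q (j - i) * bb`.
The vertex `(i, j, p)` has signed adjacency `1` to `a_i` and `-1` to `a_j`; two vertices
`(i, j, p)`, `(k, l, p')` have signed adjacency `sign a(i,j,k,l)` if `(p + p') % bb < |a(i,j,k,l)|`
and `0` otherwise.
-/

set_option autoImplicit false

namespace Pool.Agent.R17.MST

open Matrix Finset

/-- numbers of vertices in the classes, in units of `bb` -/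
def q : ZMod 6 → ℕ := ![0, 12, 4, 3, 4, 12]

/-- an odd function -/
def nu : ZMod 6 → ℤ := ![0, -21, -11, 0, 11, 21]

/-- the circulant matrix `M` -/
def M0 : ZMod 6 → ℤ := ![0, -3, -1, 0, 1, 3]

/-- interaction of two classes -/
def aa (i j k l : ZMod 6) : ℤ := nu (k - i) - nu (l - i) - nu (k - j) + nu (l - j)

lemma nu_neg : ∀ x : ZMod 6, nu (-x) = - nu x := by decide

lemma aa_skew (i j k l : ZMod 6) : aa k l i j = - aa i j k l := by
  unfold aa
  rw [← neg_sub k i, ← neg_sub k j, ← neg_sub l i, ← neg_sub l j, nu_neg, nu_neg, nu_neg, nu_neg]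
  ring

lemma nu_bound : ∀ x : ZMod 6, |nu x| ≤ 21 := by decide

lemma aa_bound (i j k l : ZMod 6) : (aa i j k l).natAbs ≤ 84 := by
  have h1 := abs_le.1 (nu_bound (k - i))
  have h2 := abs_le.1 (nu_bound (l - i))
  have h3 := abs_le.1 (nu_bound (k - j))
  have h4 := abs_le.1 (nu_bound (l - j))
  unfold aa
  omega

lemma aa_diag (i k l : ZMod 6) : aa i i k l = 0 := by
  unfold aa; ring

/-- block size -/
def bb : ℕ := 57600

lemma bb_eq : bb = 57600 := rfl

lemma bb_pos : 0 < bb := by rw [bb_eq]; norm_num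

lemma le_bb : 84 ≤ bb := by rw [bb_eq]; norm_num

attribute [irreducible] bb

/-- the vertices -/
abbrev VV (b : ℕ) : Type := ZMod 6 ⊕ (ZMod 6 × ZMod 6 × Fin (12 * b))

/-- a vertex of the second kind is active -/
def act (b : ℕ) (y : ZMod 6 × ZMod 6 × Fin (12 * b)) : ℤ :=
  if y.2.2.val < q (y.2.1 - y.1) * b then 1 else 0

/-- signed adjacency between the two kinds -/
def s1 (b : ℕ) (y : ZMod 6 × ZMod 6 × Fin (12 * b)) (k : ZMod 6) : ℤ :=
  act b y * ((if k = y.1 then 1 else 0) - (if k = y.2.1 then 1 else 0))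

/-- signed adjacency between vertices of the second kind -/
def s2 (b : ℕ) (y z : ZMod 6 × ZMod 6 × Fin (12 * b)) : ℤ :=
  act b y * act b z * ((aa y.1 y.2.1 z.1 z.2.1).sign *
    (if (y.2.2.val + z.2.2.val) % b < (aa y.1 y.2.1 z.1 z.2.1).natAbs then 1 else 0))

/-- signed adjacency -/
def sg (b : ℕ) : VV b → VV b → ℤ
  | .inl _, .inl _ => 0
  | .inl k, .inr y => - s1 b y k
  | .inr y, .inl k => s1 b y k
  | .inr y, .inr z => s2 b y z

lemma act_cases (b : ℕ) (y : ZMod 6 × ZMod 6 × Fin (12 * b)) : act b y = 0 ∨ act b y = 1 := by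
  unfold act; split_ifs <;> simp

lemma s1_cases (b : ℕ) (y : ZMod 6 × ZMod 6 × Fin (12 * b)) (k : ZMod 6) :
    s1 b y k = 0 ∨ s1 b y k = 1 ∨ s1 b y k = -1 := by
  unfold s1
  rcases act_cases b y with h | h <;> rw [h] <;> split_ifs <;> simp

lemma s2_cases (b : ℕ) (y z : ZMod 6 × ZMod 6 × Fin (12 * b)) :
    s2 b y z = 0 ∨ s2 b y z = 1 ∨ s2 b y z = -1 := by
  unfold s2
  have hs : ∀ t : ℤ, t.sign = 0 ∨ t.sign = 1 ∨ t.sign = -1 := by
    intro t
    rcases lt_trichotomy t 0 with h | h | h
    · right; right; exact Int.sign_eq_neg_one_of_neg h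
    · left; rw [h]; rfl
    · right; left; exact Int.sign_eq_one_of_pos h
  rcases act_cases b y with h | h <;> rcases act_cases b z with h' | h' <;>
    rcases hs (aa y.1 y.2.1 z.1 z.2.1) with h'' | h'' | h'' <;> rw [h, h', h''] <;>
    split_ifs <;> simp

lemma s2_skew (b : ℕ) (y z : ZMod 6 × ZMod 6 × Fin (12 * b)) : s2 b z y = - s2 b y z := by
  unfold s2
  rw [aa_skew y.1 y.2.1 z.1 z.2.1, Int.sign_neg, Int.natAbs_neg, add_comm z.2.2.val y.2.2.val]
  ring

lemma sg_cases (b : ℕ) (u v : VV b) : sg b u v = 0 ∨ sg b u v = 1 ∨ sg b u v = -1 := by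
  rcases u with k | y <;> rcases v with l | z
  · left; rfl
  · rcases s1_cases b z k with h | h | h <;> simp [sg, h]
  · exact s1_cases b y l
  · exact s2_cases b y z

lemma sg_skew (b : ℕ) (u v : VV b) : sg b v u = - sg b u v := by
  rcases u with k | y <;> rcases v with l | z
  · rfl
  · simp [sg]
  · simp [sg]
  · exact s2_skew b y z

/-- the matrix -/
noncomputable def Sm (b : ℕ) : Matrix (VV b) (VV b) ℂ := fun u v => (sg b u v : ℂ)

/-- vectors constant on the classes -/
noncomputable def FF (b : ℕ) (f h : ZMod 6 → ℂ) : VV b → ℂ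
  | .inl i => f i
  | .inr y => (act b y : ℂ) * ((h y.1 - h y.2.1) / 480)

/-- the Laplacian -/
noncomputable def Lap (h : ZMod 6 → ℂ) (i : ZMod 6) : ℂ := ∑ l, ((q (l - i) : ℂ) / 2) * (h i - h l)

/-- the circulant operator -/
noncomputable def MM (h : ZMod 6 → ℂ) (i : ZMod 6) : ℂ := ∑ k, (M0 (k - i) : ℂ) * h k

/-- residues in a block -/
lemma block_count (b p c a : ℕ) (hb : 0 < b) (ha : a ≤ b) :
    (∑ t ∈ Finset.range (c * b), (if (p + t) % b < a then (1 : ℤ) else 0)) = c * a := by
  induction c with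
  | zero => simp
  | succ c ih =>
    rw [add_mul, one_mul, Finset.sum_range_add, ih]
    have h1 : ∀ t, (p + (c * b + t)) % b = (p + t) % b := by
      intro t
      rw [show p + (c * b + t) = (p + t) + b * c by ring, Nat.add_mul_mod_self_left]
    simp only [h1]
    have h2 : (∑ t ∈ Finset.range b, (if (p + t) % b < a then (1 : ℤ) else 0)) = a := by
      have h3 : (∑ t ∈ Finset.range b, (if (p + t) % b < a then (1 : ℤ) else 0)) =
          ∑ t ∈ Finset.range b, (if t < a then (1 : ℤ) else 0) := by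
        refine Finset.sum_nbij' (fun t => (p + t) % b) (fun t => (t + (b - p % b)) % b) ?_ ?_ ?_ ?_ ?_
        · intro t _; exact Finset.mem_range.2 (Nat.mod_lt _ hb)
        · intro t _; exact Finset.mem_range.2 (Nat.mod_lt _ hb)
        · intro t ht
          have ht' := Finset.mem_range.1 ht
          have hp := Nat.mod_lt p hb
          have e1 : (p + t) % b = (p % b + t) % b := by rw [Nat.mod_add_mod]
          rw [e1, Nat.mod_add_mod, show p % b + t + (b - p % b) = t + b by omega,
            Nat.add_mod_right, Nat.mod_eq_of_lt ht']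
        · intro t ht
          have ht' := Finset.mem_range.1 ht
          have hp := Nat.mod_lt p hb
          rw [Nat.add_mod_mod]
          have e1 : (p + (t + (b - p % b))) % b = (p % b + (t + (b - p % b))) % b := by
            rw [Nat.mod_add_mod]
          rw [e1, show p % b + (t + (b - p % b)) = t + b by omega,
            Nat.add_mod_right, Nat.mod_eq_of_lt ht']
        · intro t _; rfl
      rw [h3, Finset.sum_ite]
      simp only [Finset.sum_const_zero, add_zero, Finset.sum_const, nsmul_eq_mul, mul_one]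
      have : (Finset.range b).filter (fun t => t < a) = Finset.range a := by
        ext t
        simp only [Finset.mem_filter, Finset.mem_range]
        omega
      rw [this, Finset.card_range]
    rw [h2]
    push_cast
    ring

/-- sum over the active vertices of a class -/
lemma class_sum (b p : ℕ) (hb : 0 < b) (k l : ZMod 6) (a : ℕ) (ha : a ≤ b) :
    (∑ t : Fin (12 * b), act b (k, l, t) * (if (p + t.val) % b < a then (1 : ℤ) else 0)) =
      q (l - k) * a := by
  have hq : ∀ x : ZMod 6, q x ≤ 12 := by decide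
  have h1 : (∑ t : Fin (12 * b), act b (k, l, t) * (if (p + t.val) % b < a then (1 : ℤ) else 0)) =
      ∑ t ∈ Finset.range (12 * b), (if t < q (l - k) * b then (1 : ℤ) else 0) *
        (if (p + t) % b < a then (1 : ℤ) else 0) := by
    rw [← Fin.sum_univ_eq_sum_range (fun t => (if t < q (l - k) * b then (1 : ℤ) else 0) *
        (if (p + t) % b < a then (1 : ℤ) else 0))]
    rfl
  rw [h1]
  have h2 : q (l - k) * b ≤ 12 * b := Nat.mul_le_mul_right b (hq _)
  obtain ⟨r, hr⟩ := Nat.exists_eq_add_of_le h2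
  rw [hr, Finset.sum_range_add]
  have h3 : (∑ x ∈ Finset.range r, (if q (l - k) * b + x < q (l - k) * b then (1 : ℤ) else 0) *
        (if (p + (q (l - k) * b + x)) % b < a then (1 : ℤ) else 0)) = 0 := by
    refine Finset.sum_eq_zero fun x _ => ?_
    rw [if_neg (by omega), zero_mul]
  rw [h3, add_zero, ← block_count b p (q (l - k)) a hb ha]
  refine Finset.sum_congr rfl fun x hx => ?_
  rw [if_pos (Finset.mem_range.1 hx), one_mul]

/-- number of active vertices of a class -/
lemma class_card (b : ℕ) (hb : 0 < b) (k l : ZMod 6) :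
    (∑ t : Fin (12 * b), act b (k, l, t)) = q (l - k) * b := by
  have := class_sum b 0 hb k l b le_rfl
  rw [← this]
  refine Finset.sum_congr rfl fun t _ => ?_
  rw [if_pos (Nat.mod_lt _ hb), mul_one]

/-- the identity behind the choice of `q`, `nu`, `M0` -/
lemma key : ∀ i j k : ZMod 6, (∑ l, (aa i j k l * q (l - k) - aa i j l k * q (k - l))) =
    480 * (M0 (k - i) - M0 (k - j)) := by decide

lemma key' (i j : ZMod 6) (h : ZMod 6 → ℂ) :
    (∑ k, ∑ l, ((aa i j k l : ℂ) * q (l - k)) * (h k - h l)) = 480 * (MM h i - MM h j) := by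
  have h1 : (∑ k, ∑ l, ((aa i j k l : ℂ) * q (l - k)) * (h k - h l)) =
      (∑ k, ∑ l, ((aa i j k l : ℂ) * q (l - k)) * h k) -
        ∑ k, ∑ l, ((aa i j k l : ℂ) * q (l - k)) * h l := by
    rw [← Finset.sum_sub_distrib]
    refine Finset.sum_congr rfl fun k _ => ?_
    rw [← Finset.sum_sub_distrib]
    refine Finset.sum_congr rfl fun l _ => ?_
    ring
  have h2 : (∑ k, ∑ l, ((aa i j k l : ℂ) * q (l - k)) * h l) =
      ∑ k, ∑ l, ((aa i j l k : ℂ) * q (k - l)) * h k := Finset.sum_comm
  rw [h1, h2, ← Finset.sum_sub_distrib]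
  have h3 : ∀ k, ((∑ l, ((aa i j k l : ℂ) * q (l - k)) * h k) -
      ∑ l, ((aa i j l k : ℂ) * q (k - l)) * h k) =
      480 * ((M0 (k - i) : ℂ) * h k - (M0 (k - j) : ℂ) * h k) := by
    intro k
    rw [← Finset.sum_sub_distrib]
    have h4 := congrArg (fun z : ℤ => (z : ℂ)) (key i j k)
    push_cast at h4
    have h5 : (∑ l, (((aa i j k l : ℂ) * q (l - k)) * h k - ((aa i j l k : ℂ) * q (k - l)) * h k)) =
        (∑ l, ((aa i j k l : ℂ) * q (l - k) - (aa i j l k : ℂ) * q (k - l))) * h k := by
      rw [Finset.sum_mul]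
      refine Finset.sum_congr rfl fun l _ => ?_
      ring
    rw [h5, h4]
    ring
  rw [Finset.sum_congr rfl fun k _ => h3 k, ← Finset.mul_sum, Finset.sum_sub_distrib]
  rfl

/-- the matrix on vectors constant on the classes -/
lemma mulVec_FF (f h : ZMod 6 → ℂ) :
    Sm bb *ᵥ FF bb f h = FF bb (fun i => -480 * Lap h i) (fun i => 480 * (f i + MM h i)) := by
  have hbb : 0 < bb := bb_pos
  funext u
  rcases u with i | ⟨i, j, p⟩
  · -- a vertex of the first kind
    have e1 : (Sm bb *ᵥ FF bb f h) (Sum.inl i) =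
        ∑ k, ∑ l, ∑ t : Fin (12 * bb), -(s1 bb (k, l, t) i : ℂ) *
          ((act bb (k, l, t) : ℂ) * ((h k - h l) / 480)) := by
      rw [Matrix.mulVec, dotProduct, Fintype.sum_sum_type]
      have : ∑ x : ZMod 6, Sm bb (Sum.inl i) (Sum.inl x) * FF bb f h (Sum.inl x) = 0 := by
        refine Finset.sum_eq_zero fun x _ => ?_
        simp [Sm, sg]
      rw [this, zero_add, Fintype.sum_prod_type]
      refine Finset.sum_congr rfl fun k _ => ?_
      rw [Fintype.sum_prod_type]
      refine Finset.sum_congr rfl fun l _ => ?_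
      refine Finset.sum_congr rfl fun t _ => ?_
      simp [Sm, sg, FF]
    rw [e1]
    have e2 : ∀ k l : ZMod 6, (∑ t : Fin (12 * bb), -(s1 bb (k, l, t) i : ℂ) *
          ((act bb (k, l, t) : ℂ) * ((h k - h l) / 480))) =
        -(((if i = k then 1 else 0) - (if i = l then 1 else 0)) * ((q (l - k) : ℂ) * bb) *
          ((h k - h l) / 480)) := by
      intro k l
      have h1 := congrArg (fun z : ℤ => (z : ℂ)) (class_card bb hbb k l)
      push_cast at h1
      rw [← h1, Finset.mul_sum, Finset.sum_mul, ← Finset.sum_neg_distrib]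
      refine Finset.sum_congr rfl fun t _ => ?_
      unfold s1
      rcases act_cases bb (k, l, t) with h' | h' <;> rw [h'] <;> push_cast <;> ring
    simp only [e2]
    show _ = -480 * Lap h i
    unfold Lap
    have e3 : ∀ k l : ZMod 6, -(((if i = k then (1 : ℂ) else 0) - (if i = l then 1 else 0)) *
        ((q (l - k) : ℂ) * bb) * ((h k - h l) / 480)) =
        (if i = k then -(((q (l - i) : ℂ) * bb) * ((h i - h l) / 480)) else 0) +
        (if i = l then -(((q (k - i) : ℂ) * bb) * ((h i - h k) / 480)) else 0) := by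
      intro k l
      have hq : ∀ x : ZMod 6, q (-x) = q x := by decide
      split_ifs with h1 h2 h2
      · subst h1; subst h2; ring
      · subst h1; ring
      · subst h2
        rw [← hq (k - i), neg_sub]; ring
      · ring
    simp only [e3, Finset.sum_add_distrib]
    have e4 : (∑ k : ZMod 6, ∑ l : ZMod 6,
        (if i = k then -(((q (l - i) : ℂ) * bb) * ((h i - h l) / 480)) else 0)) =
        ∑ l : ZMod 6, -(((q (l - i) : ℂ) * bb) * ((h i - h l) / 480)) := by
      rw [Finset.sum_comm]
      refine Finset.sum_congr rfl fun l _ => ?_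
      rw [Finset.sum_ite_eq]; simp
    have e5 : (∑ k : ZMod 6, ∑ l : ZMod 6,
        (if i = l then -(((q (k - i) : ℂ) * bb) * ((h i - h k) / 480)) else 0)) =
        ∑ k : ZMod 6, -(((q (k - i) : ℂ) * bb) * ((h i - h k) / 480)) := by
      refine Finset.sum_congr rfl fun k _ => ?_
      rw [Finset.sum_ite_eq]; simp
    rw [e4, e5, ← Finset.sum_add_distrib, Finset.mul_sum]
    refine Finset.sum_congr rfl fun l _ => ?_
    have : ((bb : ℕ) : ℂ) = 57600 := by rw [bb_eq]; norm_num
    rw [this]
    ring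
  · -- a vertex of the second kind
    have e1 : (Sm bb *ᵥ FF bb f h) (Sum.inr (i, j, p)) =
        (∑ k, (s1 bb (i, j, p) k : ℂ) * f k) +
        ∑ k, ∑ l, ∑ t : Fin (12 * bb), (s2 bb (i, j, p) (k, l, t) : ℂ) *
          ((act bb (k, l, t) : ℂ) * ((h k - h l) / 480)) := by
      rw [Matrix.mulVec, dotProduct, Fintype.sum_sum_type]
      congr 1
      rw [Fintype.sum_prod_type]
      refine Finset.sum_congr rfl fun k _ => ?_
      rw [Fintype.sum_prod_type]
      refine Finset.sum_congr rfl fun l _ => ?_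
      refine Finset.sum_congr rfl fun t _ => ?_
      simp [Sm, sg, FF]
    rw [e1]
    have e2 : ∀ k l : ZMod 6, (∑ t : Fin (12 * bb), (s2 bb (i, j, p) (k, l, t) : ℂ) *
          ((act bb (k, l, t) : ℂ) * ((h k - h l) / 480))) =
        (act bb (i, j, p) : ℂ) * (((aa i j k l : ℂ) * q (l - k)) * (h k - h l)) / 480 := by
      intro k l
      have h0 : ∀ t, s2 bb (i, j, p) (k, l, t) = act bb (i, j, p) * act bb (k, l, t) *
          ((aa i j k l).sign *
            (if (p.val + t.val) % bb < (aa i j k l).natAbs then 1 else 0)) := fun t => rfl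
      have h84 := (aa_bound i j k l).trans le_bb
      have h2 : aa i j k l = (aa i j k l).sign * ((aa i j k l).natAbs : ℤ) :=
        (Int.sign_mul_natAbs (aa i j k l)).symm
      generalize (aa i j k l).natAbs = N at h0 h84 h2
      generalize (aa i j k l).sign = sgn at h0 h2
      rw [h2]
      have h1 := congrArg (fun z : ℤ => (z : ℂ)) (class_sum bb p.val hbb k l N h84)
      push_cast at h1
      have h3 : (act bb (i, j, p) : ℂ) * ((((sgn * (N : ℤ) : ℤ) : ℂ) * q (l - k)) *
          (h k - h l)) / 480 = ((act bb (i, j, p) : ℂ) * (sgn : ℂ) * ((h k - h l) / 480)) *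
            ((q (l - k) : ℂ) * (N : ℂ)) := by
        push_cast; ring
      rw [h3, ← h1, Finset.mul_sum]
      refine Finset.sum_congr rfl fun t _ => ?_
      rw [h0]
      rcases act_cases bb (k, l, t) with h' | h' <;> rw [h'] <;> push_cast <;> ring
    simp only [e2]
    have e3 : (∑ k : ZMod 6, ∑ l : ZMod 6,
        (act bb (i, j, p) : ℂ) * (((aa i j k l : ℂ) * q (l - k)) * (h k - h l)) / 480) =
        (act bb (i, j, p) : ℂ) * (MM h i - MM h j) := by
      have := key' i j h
      have h5 : (act bb (i, j, p) : ℂ) * (MM h i - MM h j) =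
          (act bb (i, j, p) : ℂ) / 480 * (480 * (MM h i - MM h j)) := by ring
      rw [h5, ← this, Finset.mul_sum]
      refine Finset.sum_congr rfl fun k _ => ?_
      rw [Finset.mul_sum]
      refine Finset.sum_congr rfl fun l _ => ?_
      ring
    rw [e3]
    have e4 : (∑ k, (s1 bb (i, j, p) k : ℂ) * f k) = (act bb (i, j, p) : ℂ) * (f i - f j) := by
      have : ∀ k, (s1 bb (i, j, p) k : ℂ) * f k = (act bb (i, j, p) : ℂ) *
          ((if k = i then f k else 0) - (if k = j then f k else 0)) := by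
        intro k
        unfold s1
        push_cast
        split_ifs <;> ring
      simp only [this]
      rw [← Finset.mul_sum, Finset.sum_sub_distrib, Finset.sum_ite_eq', Finset.sum_ite_eq']
      simp
    rw [e4]
    show _ = (act bb (i, j, p) : ℂ) * (((480 * (f i + MM h i)) - (480 * (f j + MM h j))) / 480)
    ring

end Pool.Agent.R17.MST
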